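import Pool.Agent.H56.Zt.OldB

/-!
# The strong monodromy conjecture (topological version), compositions with germs of plane curves

Let `F ∈ ℂ[x_1, …, x_n]` be nonconstant. Suppose that at every singular point `p` of the
hypersurface `F = 0` the germ of `F` is, in suitable formal coordinates (and possibly with
additional variables which do not occur), a unit times a product of powers `G_j^{N_j}` of germs in
disjoint sets of variables, each `G_j` being a composition

  `G = h(f_1(u_1, v_1), …, f_m(u_m, v_m))`,  `m ≥ 1`,

where `h` is a convenient polynomial, nondegenerate with respect to the compact faces of its Newton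
polyhedron, and `f_1, …, f_m` are arbitrary germs of plane curves (reduced or not). Then the
topological zeta function of `F` is `c0 + c1 / (s+1) + Σ_S χ(S) Z_S(s)`, where `S` runs through the
strata on which the type of the germ is constant and `Z_S` is the local topological zeta function of
the germ, and every pole of it is a root of `b`, for every functional equation
`P(s) F^{s+1} = b(s) F^s`, in particular a root of the Bernstein-Sato polynomial of `F`.

The theorem contains the case of two variables (`m = 1`, `h = x`; Loeser 1988), the case of germs
which are nondegenerate and convenient in suitable coordinates (`f_k = u_k`, without condition of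
non-resonance), and for instance the sums `f_1(x_1, y_1) + ⋯ + f_m(x_m, y_m)` and
`f_1(x_1, y_1)^{c_1} + ⋯ + f_m(x_m, y_m)^{c_m}` of plane curves, whose singularities are not
isolated when some `f_k` is not reduced or some `c_k > 1`, and which are in general degenerate with
respect to their Newton polyhedra in every system of coordinates.

`Comp.Z` is the local topological zeta function of `G`: for embedded resolutions of the curves
`f_k` the pull-back of `G` is, at a point of the product of the resolutions,
`h(u_k^{N_k} v_k^{N'_k})` up to units, and the formula of Denef and Loeser is applied to it, with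
the weights given by the form.
-/

namespace Pool.Agent.Results.MP_504089_ag.CompositionTheorem

open Pool.Agent.H56.Zt

theorem result {n : ℕ} (F : MvPolynomial (Fin n) ℂ) (hF : ∀ c : ℂ, F ≠ MvPolynomial.C c)
    (b : Polynomial ℂ) (P : Op n) (hP : FE F b P) {N : ℕ} (p : Fin N → Fin n → ℂ)
    (T : ∀ i, CPt F (p i)) (c0 c1 : ℂ) (χ : Fin N → ℂ) (s0 : ℂ)
    (hs : (RatFunc.C c0 + RatFunc.C c1 / (RatFunc.X + 1) +
      ∑ i, RatFunc.C (χ i) * (T i).Z).denom.IsRoot s0) : b.IsRoot s0 :=
  Pool.Agent.H56.CT.ct_main F hF b P hP p (fun i => (T i).old) c0 c1 χ s0 hs

end Pool.Agent.Results.MP_504089_ag.CompositionTheorem
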