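import Pool.Agent.H56.ST.MAINB
import Pool.Agent.H56.ST.CIR
import Pool.Agent.H56.Zt.Eqs

/-!
# The strong monodromy conjecture (topological version, with multiplicities) for the outputs of
generic arithmetic circuits

Let `q_1, …, q_e ∈ ℂ[x_1, …, x_n]` be given by `t_k q_k = g_k(x, q_1, …, q_{k-1})`, where the
`g_k(x, v_1, …, v_{k-1})` are polynomials with arbitrary supports, and let
`F = F0(x, q_1, …, q_e)` be nonconstant, `F0(x, v)` a polynomial with an arbitrary support. Suppose
that all coefficients of `F0` and of the `t_k v_k - g_k` together are algebraically independent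
over `ℚ`. Then for every functional equation `P(s) F^{s+1} = b(s) F^s` with `b ≠ 0`, in particular
for the Bernstein-Sato polynomial of `F`, every pole of the global topological zeta function of
`F`, of order `m` say, is a root of `b` of multiplicity at least `m`.

For `e = 0` these are the polynomials with an arbitrary support and algebraically independent
coefficients. In general `F + u_1 v_1 + ⋯ + u_e v_e` becomes, after a polynomial automorphism of
the affine space, the polynomial `W = F0(x, v) + ∑ u_k (t_k v_k - g_k(x, v))`, whose coefficients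
`κ_i` are, up to signs, the coefficients above; `ε` numbers the variables `x, u, v`. `W` is
nondegenerate with respect to all faces of its Newton polytope, and its topological zeta function
`Z_W = ZG 1 a` is given by the formula of Denef and Loeser. As
`Z_{F + u v}(s) = (1 + s (s + 2) Z_F(s + 1)) / (s + 1)^2`, the function
`Φ_F(s) = ((s + 1) Z_F(s) - 1) / s` satisfies `Φ_{F + u v}(s) = Φ_F(s + 1)`, and the zeta function
of `F` is `unst e Z_W`, which is `Z_W` for `e = 0`. All poles of the topological zeta function are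
negative rational numbers.
-/

namespace Pool.Agent.Results.MP_504089_ag.GenericCircuits

open Pool.Agent.H56.Zt

theorem result {n e m r : ℕ} (g : Fin e → MvPolynomial (Fin n ⊕ Fin e) ℂ)
    (hg : ∀ k j, Sum.inr j ∈ (g k).vars → j < k) (t : Fin e → ℂ) (ht : ∀ k, t k ≠ 0)
    (q : Fin e → MvPolynomial (Fin n) ℂ)
    (hq : ∀ k, MvPolynomial.C (t k) * q k =
      MvPolynomial.aeval (Sum.elim MvPolynomial.X q) (g k))
    (F0 : MvPolynomial (Fin n ⊕ Fin e) ℂ) (F : MvPolynomial (Fin n) ℂ)
    (hF0 : F = MvPolynomial.aeval (Sum.elim MvPolynomial.X q) F0)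
    (hF : ∀ c : ℂ, F ≠ MvPolynomial.C c)
    (ε : Fin n ⊕ (Fin e ⊕ Fin e) ≃ Fin m) (a : Fin r → (Fin m →₀ ℕ))
    (ha : Function.Injective a) (κ : Fin r → ℂ) (hκ : AlgebraicIndependent ℚ κ)
    (hW : MvPolynomial.rename ε (MvPolynomial.rename (Sum.map id Sum.inr) F0 +
        ∑ k, MvPolynomial.X (Sum.inr (Sum.inl k)) *
          (MvPolynomial.C (t k) * MvPolynomial.X (Sum.inr (Sum.inr k)) -
            MvPolynomial.rename (Sum.map id Sum.inr) (g k))) =
      ∑ i, MvPolynomial.monomial (a i) (κ i)) :
    (e = 0 → unst e (ZG (fun _ => 1) a) = ZG (fun _ => 1) a) ∧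
    ∀ (b : Polynomial ℂ) (P : Op n), b ≠ 0 → FE F b P →
      ∀ s0 : ℂ, (e = 0 ∨ s0.re < 0) →
        (unst e (ZG (fun _ => 1) a)).denom.rootMultiplicity s0 ≤ b.rootMultiplicity s0 := by
  classical
  subst hF0
  refine ⟨?_, ?_⟩
  · rintro rfl
    exact Pool.Agent.H56.ST.unstab_zero _
  · intro b P hb hP s0 hs0
    obtain ⟨φ, hφ⟩ := Pool.Agent.H56.ST.circuit_stab g hg t ht q hq F0
    rw [ZG_one]
    refine Pool.Agent.H56.ST.stab_mult _ hF b hb P hP a ha κ hκ
      (φ.trans (MvPolynomial.renameEquiv ℂ ε)) ?_ _ _ s0 hs0.symm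
    rw [AlgEquiv.trans_apply, hφ, ← hW]
    rfl

end Pool.Agent.Results.MP_504089_ag.GenericCircuits
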