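import Pool.Agent.H56.Zt.OldA

/-!
# The strong monodromy conjecture (topological version), locally nondegenerate hypersurfaces

Let `F ∈ ℂ[x_1, …, x_n]` be nonconstant. Suppose that at every point `p` of the hypersurface
`F = 0` the germ of `F` is, in suitable formal coordinates, a unit times a product of powers
`G_j^{N_j}` of germs in disjoint sets of variables, each `G_j` being stably nondegenerate: for some
`e ≥ 0` the germ `G_j + u_1 v_1 + ⋯ + u_e v_e` is, in suitable formal coordinates, nondegenerate
with respect to the compact faces of its Newton polyhedron, and convenient or a quasi-homogeneous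
polynomial. Then the topological zeta function of `F` is `c0 + c1 / (s+1) + Σ_S χ(S) Z_S(s)`, where
`S` runs through the strata on which the type of the germ is constant and `Z_S` is the local
topological zeta function of the germ, and every pole of it is a root of `b`, for every functional
equation `P(s) F^{s+1} = b(s) F^s`, in particular a root of the Bernstein-Sato polynomial of `F`.

`SPt F p` is the type of the germ of `F` at `p`, and `SPt.Z` is its local topological zeta
function, by the formula of Denef and Loeser. For `e > 0` it is computed from the germ
`G + u_1 v_1 + ⋯ + u_e v_e` by the formula `Z_{G + u v}(s) = (1 + s (s+2) Z_G(s+1)) / (s+1)^2`.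

Examples: isolated singularities which are nondegenerate in suitable coordinates (among them the
simple and the unimodal ones), their products with smooth germs, normal crossings with
multiplicities, ordinary singularities of surfaces, arbitrary quasi-homogeneous nondegenerate
germs, isolated or not.
-/

namespace Pool.Agent.Results.MP_504089_ag.LocallyNondegenerate

open Pool.Agent.H56.Zt

theorem result {n : ℕ} (F : MvPolynomial (Fin n) ℂ) (hF : ∀ c : ℂ, F ≠ MvPolynomial.C c)
    (b : Polynomial ℂ) (P : Op n) (hP : FE F b P) {N : ℕ} (p : Fin N → Fin n → ℂ)
    (T : ∀ i, SPt F (p i)) (c0 c1 : ℂ) (χ : Fin N → ℂ) (s0 : ℂ) (h0 : s0.re < 0)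
    (hs : (RatFunc.C c0 + RatFunc.C c1 / (RatFunc.X + 1) +
      ∑ i, RatFunc.C (χ i) * (T i).Z).denom.IsRoot s0) : b.IsRoot s0 := by
  refine Pool.Agent.H22.T7.fin_main F hF b P hP p (fun i => (T i).old) c0 c1 χ s0 h0 ?_
  simp only [SPt.old_Z]
  exact hs

end Pool.Agent.Results.MP_504089_ag.LocallyNondegenerate
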