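import Pool.Agent.H56.ST.MAINA
import Pool.Agent.H56.Zt.Eqs

/-!
# The strong monodromy conjecture (topological version) for stably nondegenerate polynomials

Let `F ∈ ℂ[x_1, …, x_n]` be nonconstant. Suppose that for some `e ≥ 0` the polynomial
`F + u_1 v_1 + ⋯ + u_e v_e` becomes, after a polynomial automorphism of the affine space of
dimension `m = n + 2 e`, a polynomial `W = κ_1 x^{a_1} + ⋯ + κ_r x^{a_r}` which is nondegenerate
with respect to all faces of its Newton polytope. Then every pole of the global topological zeta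
function of `F` is a root of `b`, for every functional equation `P(s) F^{s+1} = b(s) F^s`, in
particular a root of the Bernstein-Sato polynomial of `F`. The number of variables is arbitrary,
and there is no condition on the faces of the Newton polyhedron of `W` or on resonances.

For `e = 0` these are the nondegenerate polynomials, in arbitrary polynomial coordinates. Further
examples: products of powers `f_1^{m_1} ⋯ f_k^{m_k}` of a nondegenerate system of polynomials in
common variables (`W = v_1^{m_1} ⋯ v_k^{m_k} + ∑ u_j (v_j - f_j)`), compositions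
`f(x, q_1(x), …, q_e(x))` and their iterations (`W = f(x, v) + ∑ u_j (v_j - q_j)`), for instance
`(z^2 - x_1^a ⋯ x_d^c)^2 - x_1^α ⋯ x_d^γ z` and the other towers of quasi-ordinary type. See
`Pool.Agent.H56.ST.circuit_stab`.

The topological zeta function `Z_W = ZG 1 a` of `W` is given by the formula of Denef and Loeser for
nondegenerate polynomials. As `Z_{F + u v}(s) = (1 + s (s + 2) Z_F(s + 1)) / (s + 1)^2`, the
function `Φ_F(s) = ((s + 1) Z_F(s) - 1) / s` satisfies `Φ_{F + u v}(s) = Φ_F(s + 1)`, and the zeta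
function of `F` is `unst e Z_W`, which is `Z_W` for `e = 0`. (The number of solutions `(x, u, v)` of
`F(x) + u v = 0` modulo `t^k` is `q^k N_k + (q - 1) q^(k - 1) ∑_{i < k} N_{k,i}` where `N_{k,i}` is
the number of the `x` modulo `t^k` with `F(x) = 0` modulo `t^i` and `N_k = N_{k,k}`.) All poles of
the topological zeta function are negative rational numbers.
-/

namespace Pool.Agent.Results.MP_504089_ag.StablyNondegenerate

open Pool.Agent.H56.Zt

theorem result {n m r : ℕ} (e : ℕ) (F : MvPolynomial (Fin n) ℂ)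
    (hF : ∀ c : ℂ, F ≠ MvPolynomial.C c) (a : Fin r → (Fin m →₀ ℕ))
    (ha : Function.Injective a) (κ : Fin r → ℂ) (hκ : ∀ i, κ i ≠ 0) (hnd : NDa a κ)
    (φ : MvPolynomial (Fin n ⊕ (Fin e ⊕ Fin e)) ℂ ≃ₐ[ℂ] MvPolynomial (Fin m) ℂ)
    (hφ : φ (MvPolynomial.rename Sum.inl F + ∑ k, MvPolynomial.X (Sum.inr (Sum.inl k)) *
      MvPolynomial.X (Sum.inr (Sum.inr k))) = ∑ i, MvPolynomial.monomial (a i) (κ i)) :
    (e = 0 → unst e (ZG (fun _ => 1) a) = ZG (fun _ => 1) a) ∧
    ∀ (b : Polynomial ℂ) (P : Op n), FE F b P →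
      ∀ s0 : ℂ, (e = 0 ∨ s0.re < 0) → (unst e (ZG (fun _ => 1) a)).denom.IsRoot s0 →
        b.IsRoot s0 := by
  classical
  refine ⟨?_, ?_⟩
  · rintro rfl
    exact Pool.Agent.H56.ST.unstab_zero _
  · intro b P hP s0 hs0 hs
    rw [ZG_one] at hs
    exact Pool.Agent.H56.ST.stab_poles F hF b P hP a ha κ hnd φ hφ _ _ s0 hs0.symm hs

end Pool.Agent.Results.MP_504089_ag.StablyNondegenerate
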